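import Pool.Agent.W548.MQ.Stm

/-!
The coordinate ring of the circle over `ℚ` is a domain and not a field.
-/

set_option autoImplicit false

open Polynomial

namespace Pool.Agent.W62.MQ.DOM

theorem P_monic : (W548.MQ.P).Monic := by
  unfold W548.MQ.P
  exact monic_X_pow_sub_C _ (by norm_num)

theorem P_natDegree : (W548.MQ.P).natDegree = 2 := by
  unfold W548.MQ.P
  exact natDegree_X_pow_sub_C

theorem P_irreducible : Irreducible W548.MQ.P := by
  have hprime : (Ideal.span {(X - C 1 : ℚ[X])}).IsPrime := by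
    rw [Ideal.span_singleton_prime (X_sub_C_ne_zero 1)]
    exact prime_X_sub_C 1
  refine irreducible_of_eisenstein_criterion (P := Ideal.span {(X - C 1 : ℚ[X])}) hprime
    ?_ ?_ ?_ ?_ P_monic.isPrimitive
  · rw [P_monic.leadingCoeff]
    intro h
    exact hprime.ne_top ((Ideal.eq_top_iff_one _).2 h)
  · intro n hn
    have h2 : W548.MQ.P.degree = 2 := by
      rw [degree_eq_natDegree P_monic.ne_zero, P_natDegree]; rfl
    rw [h2] at hn
    have hn' : n < 2 := by exact_mod_cast hn
    interval_cases n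
    · rw [Ideal.mem_span_singleton]
      refine ⟨X + 1, ?_⟩
      simp only [W548.MQ.P, coeff_sub, coeff_C_zero, coeff_X_pow]
      simp only [map_one]
      norm_num
      ring
    · rw [Ideal.mem_span_singleton]
      simp only [W548.MQ.P, coeff_sub, coeff_X_pow, coeff_C]
      norm_num
  · rw [degree_eq_natDegree P_monic.ne_zero, P_natDegree]
    norm_num
  · rw [Ideal.span_singleton_pow, Ideal.mem_span_singleton]
    rintro ⟨q, hq⟩
    have h1 : (W548.MQ.P.coeff 0) = (X - C 1) * (X + 1) := by
      simp only [W548.MQ.P, coeff_sub, coeff_C_zero, coeff_X_pow]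
      simp only [map_one]
      norm_num
      ring
    rw [h1] at hq
    have h2 : (X + 1 : ℚ[X]) = (X - C 1) * q := by
      have h3 : (X - C 1 : ℚ[X]) ≠ 0 := X_sub_C_ne_zero 1
      apply mul_left_cancel₀ h3
      rw [hq]; ring
    have h4 := congrArg (eval (1 : ℚ)) h2
    simp at h4

/-- evaluation at a point of the circle -/
noncomputable def ev (a b : ℚ) (h : b ^ 2 = 1 - a ^ 2) : W548.MQ.A →+* ℚ :=
  AdjoinRoot.lift (evalRingHom a) b (by
    simp only [W548.MQ.P, eval₂_sub, eval₂_X_pow, eval₂_C, coe_evalRingHom, eval_sub, eval_one,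
      eval_pow, eval_X, h]
    ring)

theorem ev_x (a b : ℚ) (h : b ^ 2 = 1 - a ^ 2) : ev a b h W548.MQ.x = a := by
  unfold ev W548.MQ.x
  rw [AdjoinRoot.lift_of]
  simp

theorem t_DOM : W548.MQ.S_DOM := by
  refine ⟨?_, ?_⟩
  · exact AdjoinRoot.isDomain_of_prime P_irreducible.prime
  · intro hF
    have h1 : ev 1 0 (by norm_num) (W548.MQ.x - 1) = 0 := by
      rw [map_sub, ev_x, map_one]; norm_num
    have h2 : ev 0 1 (by norm_num) (W548.MQ.x - 1) = -1 := by
      rw [map_sub, ev_x, map_one]; norm_num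
    have h3 : W548.MQ.x - 1 ≠ 0 := by
      intro h0
      rw [h0, map_zero] at h2
      norm_num at h2
    obtain ⟨b, hb⟩ := hF.mul_inv_cancel h3
    have h4 := congrArg (ev 1 0 (by norm_num)) hb
    rw [map_mul, h1, map_one] at h4
    norm_num at h4

end Pool.Agent.W62.MQ.DOM
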